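import Pool.Agent.Y981.L2X.CPair

/-!
# Contacts of two disjoint self-avoiding walks on the square lattice

Two independent uniform `n`-step self-avoiding walks from the origin of `ℤ²`, conditioned to be
disjoint (apart from the starting point), have at most of order `(log n)^2` contacts (pairs of
nearest-neighbour sites, one on each walk), with an exponential tail beyond that.
-/

set_option autoImplicit false

namespace Pool.Agent.Results.MP_8c6f77_pr.ContactTailLogTwo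

/-- `w` is an `n`-step self-avoiding path on `ℤ²` from the origin. -/
def IsSAW (n : ℕ) (w : Fin (n + 1) → ℤ × ℤ) : Prop :=
  w 0 = (0, 0) ∧
  (∀ i : Fin n, |(w i.succ).1 - (w i.castSucc).1| + |(w i.succ).2 - (w i.castSucc).2| = 1) ∧
  Function.Injective w

/-- `a_n`, the number of `n`-step self-avoiding paths on `ℤ²` from the origin -/
noncomputable def a (n : ℕ) : ℕ := Nat.card {w : Fin (n + 1) → ℤ × ℤ // IsSAW n w}

/-- `w{1,…,n} ∩ w'{0,…,m} = ∅` -/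
def Disj {n m : ℕ} (w : Fin (n + 1) → ℤ × ℤ) (w' : Fin (m + 1) → ℤ × ℤ) : Prop :=
  ∀ i j, i ≠ 0 → w i ≠ w' j

/-- the number of contacts: pairs `i, j ≥ 1` with `|w(i) - w'(j)| = 1` -/
noncomputable def contacts {n m : ℕ} (w : Fin (n + 1) → ℤ × ℤ) (w' : Fin (m + 1) → ℤ × ℤ) : ℕ :=
  Nat.card {q : Fin (n + 1) × Fin (m + 1) //
    q.1 ≠ 0 ∧ q.2 ≠ 0 ∧ |(w' q.2).1 - (w q.1).1| + |(w' q.2).2 - (w q.1).2| = 1}

/-- the probability that two independent uniform self-avoiding paths `w, w'` with `n` and `m` steps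
are disjoint (apart from their starting point) and have at least `J` contacts -/
noncomputable def P (n m : ℕ) (J : ℝ) : ℝ :=
  (Nat.card {q : (Fin (n + 1) → ℤ × ℤ) × (Fin (m + 1) → ℤ × ℤ) //
    IsSAW n q.1 ∧ IsSAW m q.2 ∧ Disj q.1 q.2 ∧ J ≤ contacts q.1 q.2} : ℝ) / (a n * a m)

theorem contacts_eq {n m : ℕ} (w : Fin (n + 1) → ℤ × ℤ) (w' : Fin (m + 1) → ℤ × ℤ) :
    contacts w w' = W840.CT.CC w w' := by
  classical
  unfold contacts W840.CT.CC
  rw [Nat.card_eq_fintype_card, Fintype.card_subtype]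
  congr 1
  ext q
  simp only [Finset.mem_filter]
  rfl

theorem disj_iff {n m : ℕ} {w : Fin (n + 1) → ℤ × ℤ} {w' : Fin (m + 1) → ℤ × ℤ}
    (h : IsSAW n w) (h' : IsSAW m w') : Disj w w' ↔ W840.CT.DJ w w' := by
  constructor
  · intro hd i j hij
    have hi : i = 0 := by
      by_contra hi
      exact hd i j hi hij
    subst hi
    refine ⟨rfl, h'.2.2 ?_⟩
    rw [← hij, h.1, h'.1]
  · intro hd i j hi hij
    exact hi (hd i j hij).1

theorem P_eq (n m : ℕ) (J : ℝ) : P n m J =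
    (({q | W840.CT.SW n q.1 ∧ W840.CT.SW m q.2 ∧ W840.CT.DJ q.1 q.2 ∧ J ≤ W840.CT.CC q.1 q.2} :
      Set ((Fin (n + 1) → ℤ × ℤ) × (Fin (m + 1) → ℤ × ℤ))).ncard : ℝ) /
      (W840.CT.cn n * W840.CT.cn m) := by
  unfold P
  have h : ({q | W840.CT.SW n q.1 ∧ W840.CT.SW m q.2 ∧ W840.CT.DJ q.1 q.2 ∧
      J ≤ W840.CT.CC q.1 q.2} : Set ((Fin (n + 1) → ℤ × ℤ) × (Fin (m + 1) → ℤ × ℤ))) =
      {q | IsSAW n q.1 ∧ IsSAW m q.2 ∧ Disj q.1 q.2 ∧ J ≤ contacts q.1 q.2} := by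
    ext q
    simp only [Set.mem_ofPred_eq]
    constructor
    · rintro ⟨h1, h2, h3, h4⟩
      exact ⟨h1, h2, (disj_iff h1 h2).2 h3, by rw [contacts_eq]; exact h4⟩
    · rintro ⟨h1, h2, h3, h4⟩
      exact ⟨h1, h2, (disj_iff h1 h2).1 h3, by rw [contacts_eq] at h4; exact h4⟩
  rw [h]
  have h2 := Nat.card_coe_set_eq ({q | IsSAW n q.1 ∧ IsSAW m q.2 ∧ Disj q.1 q.2 ∧
    J ≤ contacts q.1 q.2} : Set ((Fin (n + 1) → ℤ × ℤ) × (Fin (m + 1) → ℤ × ℤ)))
  rw [← h2]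
  rfl

/-- **Contacts of disjoint walks.**  Two walks of length `n ≥ 2` conditioned to be disjoint have at
least `K ((log n)^2 + x)` contacts with (conditional) probability at most `exp (-x)`. -/
theorem result : ∃ K : ℝ, 0 < K ∧ ∀ n : ℕ, 2 ≤ n → ∀ x : ℝ, 0 ≤ x →
      P n n (K * (Real.log n ^ 2 + x)) ≤ Real.exp (-x) * P n n 0 := by
  obtain ⟨K, hK, h⟩ := Y981.L2X.CP.tail_cond2
  refine ⟨K, hK, fun n hn x hx => ?_⟩
  have h1 := h n hn x hx
  have hn' := W840.CT.cn_pos n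
  rw [P_eq, P_eq, ← mul_div_assoc]
  refine div_le_div_of_nonneg_right ?_ (by positivity)
  have e : ({q | W840.CT.SW n q.1 ∧ W840.CT.SW n q.2 ∧ W840.CT.DJ q.1 q.2 ∧
      (0 : ℝ) ≤ W840.CT.CC q.1 q.2} :
      Set ((Fin (n + 1) → ℤ × ℤ) × (Fin (n + 1) → ℤ × ℤ))) =
      {q | W840.CT.SW n q.1 ∧ W840.CT.SW n q.2 ∧ W840.CT.DJ q.1 q.2} := by
    ext q
    simp only [Set.mem_ofPred_eq, Nat.cast_nonneg, and_true]
  rw [e]
  exact h1

end Pool.Agent.Results.MP_8c6f77_pr.ContactTailLogTwo
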