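import Pool.Agent.Y943.SL.Uneq

/-!
Two self-avoiding walks of different lengths on the square, triangular and honeycomb lattices: the
non-intersection probability depends, up to constants, on the shorter walk only when the other one is
much longer, and the exponent of Q1 can be read off from pairs of very different lengths, along a
sparse set of lengths.
-/

set_option autoImplicit false

namespace Pool.Agent.Results.MP_8c6f77_pr.ThreeLatticesUnequal

open Filter Topology

/-- `P n m`: the probability `a_{n+m} / (a_n a_m)` that two independent uniform self-avoiding walks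
from the origin with `n` and `m` steps meet at the origin only, when `a n` is the number of `n`-step
self-avoiding walks of a transitive lattice -/
noncomputable def P (a : ℕ → ℕ) (n m : ℕ) : ℝ := (a (n + m) : ℝ) / ((a n : ℝ) * a m)

/-- the gaps of the set `S` of lengths are `o(√(n log n))` -/
def SmallGaps (S : Set ℕ) : Prop :=
  ∀ δ : ℝ, 0 < δ → ∀ᶠ n : ℕ in atTop, ∃ m ∈ S, n ≤ m ∧
    (m : ℝ) ≤ n + δ * Real.sqrt (n * Real.log n)

/-- **Theorem.** Let `a n` be the number of `n`-step self-avoiding walks from the origin on the square,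
the triangular or the honeycomb lattice and `μ = inf_{n ≥ 1} (a n)^{1/n}`.
(1) There is `B` with `P n m ≥ exp (-B (log (min n m + 1))²)` for all `n, m ≥ 1`.
(2) There is `K` with `|P n m / (μ^m / a m) - 1| ≤ K m log n / √n` for all even `m` with
`m log n ≤ √n`.
(3) Let `α` be real and `N m → ∞` with `m log (N m) / √(N m) → 0`. Then `P n n = n^(-α + o(1))` if and
only if `P (N m) m = m^(-α + o(1))`, if and only if `a n = μ^n n^(α + o(1))`; and this holds if
`P (N m) m = m^(-α + o(1))` for the `m` in some set with gaps `o(√(m log m))`. -/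
theorem result :
    ∀ Adj : ℤ × ℤ → ℤ × ℤ → Prop,
      (Adj = (fun p q : ℤ × ℤ => |p.1 - q.1| + |p.2 - q.2| = 1) ∨
       Adj = (fun p q : ℤ × ℤ =>
          q - p ∈ ({(1, 0), (-1, 0), (0, 1), (0, -1), (1, -1), (-1, 1)} : Set (ℤ × ℤ))) ∨
       Adj = (fun p q : ℤ × ℤ =>
          q - p = (1, 0) ∨ q - p = (-1, 0) ∨
          (q - p = (0, 1) ∧ Even (p.1 + p.2)) ∨
          (q - p = (0, -1) ∧ Even (q.1 + q.2)))) →
      ∀ a : ℕ → ℕ,
        (∀ n : ℕ, a n = Set.ncard {f : Fin (n + 1) → ℤ × ℤ |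
            f 0 = 0 ∧ Function.Injective f ∧
            ∀ i : Fin n, Adj (f i.castSucc) (f i.succ)}) →
        ∀ μ : ℝ,
          μ = (⨅ n : {n : ℕ // 1 ≤ n}, ((a n.1 : ℝ) ^ ((1 : ℝ) / (n.1 : ℝ)))) →
          (∃ B : ℝ, ∀ n m : ℕ, 1 ≤ n → 1 ≤ m →
            Real.exp (-(B * Real.log (((min n m : ℕ) : ℝ) + 1) ^ 2)) ≤ P a n m) ∧
          (∃ K : ℝ, ∀ n m : ℕ, 2 ≤ n → Even m → (m : ℝ) * Real.log n ≤ Real.sqrt n →
            |P a n m / (μ ^ m / a m) - 1| ≤ K * ((m : ℝ) * Real.log n / Real.sqrt n)) ∧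
          ∀ (α : ℝ) (N : ℕ → ℕ), Tendsto N atTop atTop →
            Tendsto (fun m : ℕ => (m : ℝ) * Real.log (N m) / Real.sqrt (N m)) atTop (𝓝 0) →
            (Tendsto (fun n : ℕ => Real.log (P a n n) / Real.log n) atTop (𝓝 (-α)) ↔
              Tendsto (fun m : ℕ => Real.log (P a (N m) m) / Real.log m) atTop (𝓝 (-α))) ∧
            (Tendsto (fun n : ℕ => Real.log (P a n n) / Real.log n) atTop (𝓝 (-α)) ↔
              Tendsto (fun n : ℕ => Real.log ((a n : ℝ) / μ ^ n) / Real.log n) atTop (𝓝 α)) ∧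
            ∀ S : Set ℕ, SmallGaps S →
              Tendsto (fun m : ℕ => Real.log (P a (N m) m) / Real.log m) (atTop ⊓ 𝓟 S)
                (𝓝 (-α)) →
              Tendsto (fun n : ℕ => Real.log (P a n n) / Real.log n) atTop (𝓝 (-α)) := by
  intro A hA a ha μ hμ
  rcases hA with rfl | rfl | rfl
  · obtain ⟨K, c, C, h⟩ := Pool.Agent.Y943.SL.hy_sq a ha μ hμ
    exact Pool.Agent.Y943.SL.uneq (Pool.Agent.Y943.SL.wk_sq a ha μ hμ).1 h
  · obtain ⟨K, c, C, h⟩ := Pool.Agent.Y943.SL.hy_tri a ha μ hμ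
    exact Pool.Agent.Y943.SL.uneq (Pool.Agent.Y943.SL.wk_tri a ha μ hμ).1 h
  · obtain ⟨K, c, C, h⟩ := Pool.Agent.Y943.SL.hy_hex a ha μ hμ
    exact Pool.Agent.Y943.SL.uneq (Pool.Agent.Y943.SL.wk_hex a ha μ hμ).1 h

end Pool.Agent.Results.MP_8c6f77_pr.ThreeLatticesUnequal
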